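import Pool.Agent.Work.MP_d057eb_an.Proof

open MeasureTheory Filter Topology
open scoped ENNReal

namespace Pool.Agent.Results.MP_d057eb_an.NthDiameterLimit

/-- **Full answer to Q1.** For every non-empty compact `K ⊆ ℂ`,
`δ_n(K^{1/n}) / C(K^{1/n}) → 1` as `n → ∞`. -/
theorem result (K : Set ℂ) (hK : IsCompact K) (hne : K.Nonempty) :
    Tendsto (fun n : ℕ => nthDiameter n (closedNbhd K (1 / (n : ℝ))) /
      (capacity (closedNbhd K (1 / (n : ℝ)))).toReal) atTop (𝓝 1) :=
  main_limit K hK hne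

end Pool.Agent.Results.MP_d057eb_an.NthDiameterLimit
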